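import Mathlib
import Pool.Agent.U286.LY.LInst
import Pool.Agent.U286.LY.LWidth

/-!
# Triangle detection by random word circuits with bounded error

The input is the list of the `m` edges of a graph with `n ≥ 4 m` vertices (`IsGraph n`); the
question is whether it has a triangle (`HasTriangle`). The model is the word circuit of the library
(`Pool.Agent.Y631.Wc.WCirc`): the gates hold words (elements of a finite set `Z`), and a gate
computes an ARBITRARY function of at most `κ` items of the list and words of earlier gates. The
items can be read everywhere; `reads`, the number of the wires from items to gates, is counted.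

A random circuit (`Rand`) is a circuit for every point of a finite probability space, a nonuniform
form of the random words of the machine. The error is that of the problem: the answer is wrong with
probability at most `1 / 3` for every graph, and the cost is the expected cost. The number of reads
and the width are bounded on average only. The circuit `C ω` has the width `c` (`WidthLE`) if the
graph of its gates (the items are deleted) has treewidth less than `c`, or can be drawn in the plane
with at most `c ^ 2` gates and crossings.

**Result.** If the expected number of reads is at most `r m`, then the expected width is at least `m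
/ (2 ^ (110000 r) (κ + 1) b)` for words of `b` bits. So with `O (m)` reads, bounded fan-in and words
of `O (log m)` bits the treewidth is at least `c m / log m`, and a drawing has at least `c m ^ 2 /
log ^ 2 m` gates and crossings, which is much more than linear. If the expected width is at most `m
^ (1 - ε)`, the expected number of reads is `Ω (ε m log m)`.

**Proof.** The earlier results on word circuits (`TreewidthTimesReads`, `CrossingNumber`,
`LatticeLayouts`) are about circuits which are always correct: they use fooling sets, and a random
circuit is reduced to its worst circuit. With errors a hard distribution is necessary, but the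
circuit is divided into parts only after it is known, and then only `m / C ^ r` pairs of items are
separated. New here (`Pool.Agent.U286.LY.fam_error`, found with Exact Triangle,
`MP_62fbe0_lc.BoundedError`): (i) pairs of places matched by a random shift; (ii) a corruption lemma
(Razborov) for partitions into rectangles on the separated pairs, where the shift, the circuit, the
separated pairs and the fixing of all other items are chosen by weights such that the error on the
separated pairs stays small; (iii) the error `1 / 3` is reduced by the majority of 160 circuits that
are divided separately. The instances here: the item `u` of the first block is an edge from a hub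
`a` to `x_u`, the item `v` of the second block an edge from a hub `b` to `y_v`, and the third block
has the edges from `x_u` to `y_v`, `v = u + s`, for the shift `s`.
-/

set_option autoImplicit false

namespace Pool.Agent.Results.MP_ad5e8e_lc.BoundedError

open Pool.Agent.Y631.Wc Pool.Agent.U286.LY

/-- (1) Let `C` be a random circuit of fan-in at most `κ`, with words of `b ≥ 1` bits, that decides
whether a graph with `m` edges has a triangle with an error of at most `1 / 3`, and let `C ω` have
the width `c ω`. If the expected number of reads is at most `r m`, `r ≥ 1`, then `m ≤ 2 ^ (110000 r)
(κ + 1) b E c`.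

(2) For all `a`, `κ`, `ε > 0` and all large `m`: if such a random circuit has at most `m ^ a` words
and the expected width is at most `m ^ (1 - ε)`, then the expected number of reads is at least `(ε /
440000) m log₂ m`. -/
theorem result :
    (∀ {m n r κ b : ℕ}, 4 * m ≤ n → 1 ≤ r → 1 ≤ b → ∀ {Z : Type} [Fintype Z], Fintype.card Z ≤ 2 ^ b →
      ∀ {Ω : Type} [Fintype Ω] (p : Ω → ℝ) (C : Ω → WCirc (Fin m) (ℕ × ℕ) Z) (c : Ω → ℕ),
      Rand (IsGraph n) HasTriangle κ p C → (∀ ω, WidthLE (C ω) (c ω)) →
      mean p (fun ω => (C ω).reads) ≤ r * m →
      (m : ℝ) ≤ 2 ^ (110000 * r) * ((κ + 1) * b * mean p c)) ∧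
    ∀ (a κ : ℕ) (ε : ℝ), 0 < ε → ∃ m₀ : ℕ, ∀ m ≥ m₀, ∀ n ≥ 4 * m, ∀ (Z : Type) [Fintype Z],
      Fintype.card Z ≤ m ^ a → ∀ (Ω : Type) [Fintype Ω] (p : Ω → ℝ)
      (C : Ω → WCirc (Fin m) (ℕ × ℕ) Z) (c : Ω → ℕ), Rand (IsGraph n) HasTriangle κ p C →
      (∀ ω, WidthLE (C ω) (c ω)) → mean p c ≤ (m : ℝ) ^ (1 - ε) →
      ε / 440000 * (m * Real.logb 2 m) ≤ mean p fun ω => (C ω).reads := by
  refine ⟨?_, ?_⟩
  · intro m n r κ b hn hr hb Z _ hZ Ω _ p C c h hc hR
    exact all_width (m₀ := 100) (by norm_num) (fun hm => tri_inst (by omega) hn) hr hb hZ p C h hR c hc
  · intro a κ ε hε
    obtain ⟨n₀, hn₀⟩ := all_reads_width (X := ℕ × ℕ) a κ ε hε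
    refine ⟨max n₀ 100, fun m hm n hn Z _ hZ Ω _ p C c h hc hT => ?_⟩
    have hm1 := (le_max_left _ _).trans hm
    have hm2 := (le_max_right _ _).trans hm
    exact hn₀ m hm1 _ _ (tri_inst (by omega) hn) Z hZ Ω p C c h hc hT

end Pool.Agent.Results.MP_ad5e8e_lc.BoundedError
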