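import Mathlib
import Pool.Agent.U514.DSM.Width
import Pool.Agent.U286.LY.LInst
import Pool.Agent.U286.LY.LWidth

/-!
# Triangle detection with bounded error: random circuits contain every graph as a minor

The input is the list of the `m` edges of a graph with `n ≥ 4 m` vertices (`IsGraph n`); the question
is whether the graph has a triangle (`HasTriangle`). The model is the word circuit of the library
(`Pool.Agent.Y631.Wc.WCirc`): the gates hold words (elements of a finite set `Z`), and a gate
computes an ARBITRARY function of at most `κ` items of the list and words of earlier gates.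

A random circuit (`Pool.Agent.U286.LY.Rand`) is a circuit for every point of a finite probability
space, and for every graph the answer is wrong with probability at most `1 / 3`. The number of reads
(wires from items to gates) is bounded on average only.

The graph of the gates (`gateGraph`) has the gates as vertices and the wires between gates as edges;
the items, and the wires from them, are deleted. `HasMinor G H d`: there are pairwise disjoint sets
of vertices of `G`, one for each vertex of `H`, each with a centre from which it can be reached by
walks of length at most `d` inside of the set, and an edge of `G` between the sets of adjacent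
vertices of `H`. `Universal G M d`: this holds for EVERY graph `H` with at most `M` vertices and at
most `M` edges.

**Result.** Let the circuits have at most `m ^ (1 + η)` gates with `η < 1`, with words of
`O (log m)` bits, and less than `c ε m log m` reads on average. Then with probability more than
`m ^ (-η - ε)` the graph of the gates contains every graph with at most `m ^ (1 - η - ε)` vertices
and edges as a minor with branch sets of radius `m ^ (η + ε)`. In particular random circuits
with `O (m)` reads whose graphs are planar, or of bounded genus, or in any other class without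
some fixed minor, need quadratic size up to `m ^ ε`, also with bounded error.

**Proof.** A graph with `s` vertices which is not universal for `M` edges with radius
`√(s log s / M)` has treewidth `O (√(M s log s))` (`Pool.Agent.U514.MU.treewidth_of_not_universal`, found
for `MP_885423_lc.MinorUniversality`). The bound of `MP_ad5e8e_lc.BoundedError` for the mean width
(`Pool.Agent.U286.LY.all_width`) is applied to the width which is this number for the circuits
which are not universal and the number of gates for the others, which are rare.
-/

set_option autoImplicit false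

namespace Pool.Agent.Results.MP_ad5e8e_lc.BoundedErrorMinors

open Pool.Agent.Y631.Wc Pool.Agent.U286.LY Pool.Agent.U514.MU
open Pool.Agent.U514.DSM
open Pool.Agent.U514.PD.W (gateGraph)

/-- Let `C` be a random circuit of fan-in at most `κ`, with words of `b ≥ 1` bits (at most `m ^ a`
words in (2)), that decides whether a graph, given by the list of its `m` edges, has a triangle, with
an error of at most `1 / 3` for every graph; `n ≥ 4 m` is the number of vertices.

(1) If every circuit has at most `s` gates, `M ≥ 1`, `4 (⌊log₂ s⌋ + 1) s ≤ M d ^ 2` and the expected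
number of reads is at most `r m`, `r ≥ 1`, then
`m ≤ 2 ^ (110000 r) (κ + 1) b (28 + 24 √(M (⌊log₂ s⌋ + 1) s) + P (s + 1))`, where `P` is the
probability that the graph of the gates contains every graph with at most `M` vertices and at most
`M` edges as a minor with branch sets of radius at most `d`.

(2) For all `a`, `κ`, `η ≥ 0`, `ε > 0` with `η + ε ≤ 1` and all large `m`: if the circuits have at most
`m ^ (1 + η)` gates and the expected number of reads is less than `(ε / 3080000) m log₂ m`, then with
probability more than `m ^ (-(η + ε))` the graph of the gates contains every graph with at most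
`m ^ (1 - η - ε)` vertices and at most `m ^ (1 - η - ε)` edges as a minor with branch sets of radius
at most `m ^ (η + ε)`. -/
theorem result :
    (∀ {m n r κ b M d s : ℕ}, 4 * m ≤ n → 1 ≤ r → 1 ≤ b → 1 ≤ M → ∀ {Z : Type} [Fintype Z],
      Fintype.card Z ≤ 2 ^ b →
      ∀ {Ω : Type} [Fintype Ω] (p : Ω → ℝ) (C : Ω → WCirc (Fin m) (ℕ × ℕ) Z),
      Rand (IsGraph n) HasTriangle κ p C →
      (∀ ω, (C ω).size ≤ s) → 4 * (Nat.log 2 s + 1) * s ≤ M * d ^ 2 →
      mean p (fun ω => (C ω).reads) ≤ r * m →
      (m : ℝ) ≤ 2 ^ (110000 * r) * ((κ + 1) * b *
        (28 + 24 * Real.sqrt (M * (Nat.log 2 s + 1) * s) + universalProb p C M d * (s + 1)))) ∧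
    ∀ (a κ : ℕ) (η ε : ℝ), 0 ≤ η → 0 < ε → η + ε ≤ 1 → ∃ m₀ : ℕ, ∀ m ≥ m₀, ∀ n ≥ 4 * m,
      ∀ (Z : Type) [Fintype Z], Fintype.card Z ≤ m ^ a →
      ∀ (Ω : Type) [Fintype Ω] (p : Ω → ℝ) (C : Ω → WCirc (Fin m) (ℕ × ℕ) Z),
      Rand (IsGraph n) HasTriangle κ p C →
      (∀ ω, ((C ω).size : ℝ) ≤ (m : ℝ) ^ (1 + η)) →
      mean p (fun ω => (C ω).reads) < ε / 3080000 * (m * Real.logb 2 m) →
      (m : ℝ) ^ (-(η + ε)) <
        minorProb p C ((m : ℝ) ^ (1 - η - ε)) ⌊(m : ℝ) ^ (η + ε)⌋₊ := by
  refine ⟨?_, ?_⟩
  · intro m n r κ b M d s hn hr hb hM Z _ hZ Ω _ p C h hs hd hR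
    obtain ⟨c, hc1, hc2⟩ := width_universal p h.nonneg h.total C hM hs hd
    refine (all_width (m₀ := 100) (by norm_num) (fun hm => tri_inst (by omega) hn) hr hb hZ p C h hR
      c hc1).trans ?_
    gcongr
  · intro a κ η ε hη hε hηε
    obtain ⟨n₁, hn₁⟩ := all_reads_width (X := ℕ × ℕ) a κ (ε / 7) (by positivity)
    obtain ⟨n₂, hn₂⟩ := width_minors η ε hη hε hηε
    refine ⟨max (max n₁ n₂) 100, fun m hm n hn Z _ hZ Ω _ p C h hs hR => ?_⟩
    have a1 : n₁ ≤ m := ((le_max_left _ _).trans (le_max_left _ _)).trans hm
    have a2 : n₂ ≤ m := ((le_max_right _ _).trans (le_max_left _ _)).trans hm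
    have a3 : 100 ≤ m := (le_max_right _ _).trans hm
    by_contra hcon
    push Not at hcon
    obtain ⟨c, hc1, hc2⟩ := hn₂ m a2 p h.nonneg h.total C hs hcon
    have h1 := hn₁ m a1 _ _ (tri_inst (by omega) hn) Z hZ Ω p C c h hc1 hc2
    have h2 : ε / 7 / 440000 * (m * Real.logb 2 m) = ε / 3080000 * (m * Real.logb 2 m) := by ring
    rw [h2] at h1
    exact absurd hR (not_lt.2 h1)

end Pool.Agent.Results.MP_ad5e8e_lc.BoundedErrorMinors
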